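import Pool.Agent.K1H88.GT.Stm

set_option autoImplicit false

/-! Project GT (helper88), piece FINQ: the theorem for primes `q`. -/

namespace Pool.Agent.K1H75.GT

open Finset MeasureTheory Pool.Agent.K1H88.GT

/-- a modification of modulus one on the squarefree numbers -/
noncomputable def aa (q n : ℕ) : ℂ :=
  if jacobiSym (n : ℤ) q = 0 then ((ArithmeticFunction.moebius n : ℤ) : ℂ) else qa q n

theorem norm_moebius (n : ℕ) : ‖((ArithmeticFunction.moebius n : ℤ) : ℂ)‖ ^ 2 =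
    if Squarefree n then 1 else 0 := by
  rw [Complex.norm_intCast, sq_abs, ← Int.cast_pow, ArithmeticFunction.moebius_sq]
  split_ifs <;> simp

theorem norm_aa (q n : ℕ) : ‖aa q n‖ ^ 2 = if Squarefree n then 1 else 0 := by
  unfold aa
  by_cases h : jacobiSym (n : ℤ) q = 0
  · rw [if_pos h]
    exact norm_moebius n
  · rw [if_neg h]
    unfold qa
    rw [norm_mul, mul_pow, norm_moebius]
    have h1 : ‖((jacobiSym (n : ℤ) q : ℤ) : ℂ)‖ ^ 2 = 1 := by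
      rcases jacobiSym.trichotomy (n : ℤ) q with h2 | h2 | h2
      · exact absurd h2 h
      · rw [h2]; simp
      · rw [h2]; simp
    rw [h1, mul_one]

theorem aa_eq {q n : ℕ} (hq : q.Prime) (hn : n < q) : aa q n = qa q n := by
  unfold aa
  by_cases h : jacobiSym (n : ℤ) q = 0
  · rw [if_pos h]
    rcases Nat.eq_zero_or_pos n with rfl | h0
    · simp [qa]
    · exfalso
      refine jacobiSym.ne_zero (a := (n : ℤ)) (b := q) ?_ h
      rw [Int.gcd_natCast_natCast]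
      exact (Nat.coprime_of_lt_prime h0.ne' hn hq).symm
  · rw [if_neg h]

theorem ZZ_eq {q L U1 U2 j : ℕ} (h : ∀ n ≤ L, aa q n = qa q n) (hL : U2 + j ≤ L) :
    ZZ (aa q) U1 U2 j = ZZ (qa q) U1 U2 j := by
  unfold ZZ DD
  refine sum_congr rfl fun u hu => ?_
  rw [mem_Ico] at hu
  rw [h (u + j + 1) (by omega)]
  congr 1
  exact sum_congr rfl fun n hn => h n (by rw [mem_Ioc] at hn; omega)

theorem VV_eq {q L : ℕ} (h : ∀ n ≤ L, aa q n = qa q n) {X H : ℝ} (hX : 0 ≤ X)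
    (hL : 2 * X + H / 2 ≤ L) : VV (aa q) X H = VV (qa q) X H := by
  unfold VV
  congr 1
  refine intervalIntegral.integral_congr fun x hx => ?_
  rw [Set.uIcc_of_le (by linarith)] at hx
  have h3 : MM (aa q) x H = MM (qa q) x H := by
    unfold MM
    refine sum_congr rfl fun n hn => h n ?_
    rw [mem_filter] at hn
    have h1 := (abs_lt.1 hn.2).2
    have h2 := hx.2
    have h4 : (n : ℝ) ≤ L := by linarith
    exact_mod_cast h4
  show ‖MM (aa q) x H‖ ^ 2 = ‖MM (qa q) x H‖ ^ 2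
  rw [h3]

/-- the sum of the point masses -/
noncomputable def nu (S : Finset ℕ) : Measure ℕ := ∑ q ∈ S, Measure.dirac q

instance (S : Finset ℕ) : IsFiniteMeasure (nu S) := ⟨by
  unfold nu
  rw [Measure.finsetSum_apply]
  simp⟩

open Classical in
theorem nu_apply (S : Finset ℕ) (E : Set ℕ) :
    nu S E = ((S.filter (fun q => q ∈ E)).card : ENNReal) := by
  unfold nu
  rw [Measure.finsetSum_apply, card_filter]
  push_cast
  refine sum_congr rfl fun q _ => ?_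
  rw [Measure.dirac_apply' q (MeasurableSet.of_discrete)]
  by_cases h : q ∈ E <;> simp [h]

theorem nu_int (S : Finset ℕ) (f : ℕ → ℝ) : ∫ q, f q ∂(nu S) = ∑ q ∈ S, f q := by
  unfold nu
  rw [integral_finsetSum_measure (fun q _ => integrable_dirac (by simp))]
  exact sum_congr rfl fun q _ => integral_dirac f q

/-- the second moments -/
theorem mom {ε Cc Cm : ℝ} (h0 : 0 < ε) (h1 : ε ≤ 1 / 4) (hCc : 0 ≤ Cc) (hCm : 0 ≤ Cm)
    (hC : ∀ A B j : ℕ, 1 ≤ j → j ≤ B →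
      ((sol A B j).card : ℝ) ≤ Cc * (B : ℝ) ^ (1 + ε / 2) * j)
    (hM : ∀ Q U1 U2 j : ℕ, U1 ≤ U2 → 1 ≤ j →
      ∑ q ∈ (Icc 1 Q).filter (fun q => q.Prime ∧ 2 < q), ‖ZZ (qa q) U1 U2 j‖ ^ 2 ≤
        Q * ((sol (U1 + j) (U2 + j) j).card : ℝ) +
          Cm * ((U2 : ℝ) + j) ^ 4 * (j : ℝ) ^ 2 * (1 + Real.log ((U2 : ℝ) + j)))
    {Q N U1 U2 j : ℕ} (hN : 1 ≤ N) (hNQ : N ≤ Q) (hU : U1 ≤ U2)
    (hU2 : U2 ≤ 6 * N) (hj : 1 ≤ j) (hjN : j ≤ 2 * N) (hj1 : (j : ℝ) ≤ (2 * (N : ℝ)) ^ (1 - ε))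
    (hj2 : (N : ℝ) * j ≤ (Q : ℝ) ^ (1 / 2 - ε)) :
    ∑ q ∈ (Icc 1 Q).filter (fun q => q.Prime ∧ 2 < q), ‖ZZ (qa q) U1 U2 j‖ ^ 2 ≤
      (128 * Cc + 4096 * (1 + 8 / ε) * Cm) * Q * (N : ℝ) ^ (2 - ε / 2) := by
  refine (hM Q U1 U2 j hU hj).trans ?_
  have hN1 : (1 : ℝ) ≤ N := by exact_mod_cast hN
  have hN0 : (0 : ℝ) < N := by linarith
  have hNQ1 : (N : ℝ) ≤ Q := by exact_mod_cast hNQ
  have hQ1 : (1 : ℝ) ≤ Q := hN1.trans hNQ1
  have hQ0 : (0 : ℝ) < Q := by linarith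
  have hj0 : (1 : ℝ) ≤ j := by exact_mod_cast hj
  have hB : (U2 : ℝ) + j ≤ 8 * N := by
    have h2 : U2 + j ≤ 8 * N := by omega
    exact_mod_cast h2
  have hB0 : 0 ≤ (U2 : ℝ) + j := by positivity
  -- first term
  have t1 : (Q : ℝ) * ((sol (U1 + j) (U2 + j) j).card : ℝ) ≤
      128 * Cc * Q * (N : ℝ) ^ (2 - ε / 2) := by
    have e1 := hC (U1 + j) (U2 + j) j hj (by omega)
    have e2 : ((U2 + j : ℕ) : ℝ) ^ (1 + ε / 2) ≤ 64 * (N : ℝ) ^ (1 + ε / 2) := by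
      have e3 : ((U2 + j : ℕ) : ℝ) ^ (1 + ε / 2) ≤ (8 * (N : ℝ)) ^ (1 + ε / 2) := by
        refine Real.rpow_le_rpow (Nat.cast_nonneg _) ?_ (by linarith)
        push_cast
        exact hB
      refine e3.trans ?_
      rw [Real.mul_rpow (by norm_num) hN0.le]
      refine mul_le_mul_of_nonneg_right ?_ (by positivity)
      calc (8 : ℝ) ^ (1 + ε / 2) ≤ (8 : ℝ) ^ (2 : ℝ) :=
            Real.rpow_le_rpow_of_exponent_le (by norm_num) (by linarith)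
        _ = 64 := by norm_num
    have e4 : (j : ℝ) ≤ 2 * (N : ℝ) ^ (1 - ε) := by
      refine hj1.trans ?_
      rw [Real.mul_rpow (by norm_num) hN0.le]
      refine mul_le_mul_of_nonneg_right ?_ (by positivity)
      calc (2 : ℝ) ^ (1 - ε) ≤ (2 : ℝ) ^ (1 : ℝ) :=
            Real.rpow_le_rpow_of_exponent_le (by norm_num) (by linarith)
        _ = 2 := by norm_num
    have e5 : (N : ℝ) ^ (1 + ε / 2) * (N : ℝ) ^ (1 - ε) = (N : ℝ) ^ (2 - ε / 2) := by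
      rw [← Real.rpow_add hN0]
      congr 1
      ring
    calc (Q : ℝ) * ((sol (U1 + j) (U2 + j) j).card : ℝ) ≤
          Q * (Cc * ((U2 + j : ℕ) : ℝ) ^ (1 + ε / 2) * j) := by gcongr
      _ ≤ Q * (Cc * (64 * (N : ℝ) ^ (1 + ε / 2)) * (2 * (N : ℝ) ^ (1 - ε))) := by gcongr
      _ = 128 * Cc * Q * ((N : ℝ) ^ (1 + ε / 2) * (N : ℝ) ^ (1 - ε)) := by ring
      _ = 128 * Cc * Q * (N : ℝ) ^ (2 - ε / 2) := by rw [e5]
  -- second term
  have t2 : Cm * ((U2 : ℝ) + j) ^ 4 * (j : ℝ) ^ 2 * (1 + Real.log ((U2 : ℝ) + j)) ≤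
      4096 * (1 + 8 / ε) * Cm * Q * (N : ℝ) ^ (2 - ε / 2) := by
    have e1 : Real.log ((U2 : ℝ) + j) ≤ 8 / ε * (N : ℝ) ^ ε := by
      have e2 : Real.log ((U2 : ℝ) + j) ≤ Real.log (8 * N) :=
        Real.log_le_log (by positivity) hB
      have e3 : Real.log (8 * N) ≤ (8 * (N : ℝ)) ^ ε / ε :=
        Real.log_le_rpow_div (by positivity) h0
      refine (e2.trans e3).trans ?_
      rw [Real.mul_rpow (by norm_num) hN0.le]
      have e4 : (8 : ℝ) ^ ε ≤ 8 := by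
        calc (8 : ℝ) ^ ε ≤ (8 : ℝ) ^ (1 : ℝ) :=
              Real.rpow_le_rpow_of_exponent_le (by norm_num) (by linarith)
          _ = 8 := by norm_num
      calc (8 : ℝ) ^ ε * (N : ℝ) ^ ε / ε ≤ 8 * (N : ℝ) ^ ε / ε := by gcongr
        _ = 8 / ε * (N : ℝ) ^ ε := by ring
    have e5 : (1 : ℝ) ≤ (N : ℝ) ^ ε := Real.one_le_rpow hN1 h0.le
    have e6 : 1 + Real.log ((U2 : ℝ) + j) ≤ (1 + 8 / ε) * (N : ℝ) ^ ε := by
      rw [add_mul, one_mul]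
      exact add_le_add e5 e1
    have e7 : ((N : ℝ) * j) ^ 2 ≤ (Q : ℝ) ^ (1 - 2 * ε) := by
      calc ((N : ℝ) * j) ^ 2 ≤ ((Q : ℝ) ^ (1 / 2 - ε)) ^ 2 := by gcongr
        _ = (Q : ℝ) ^ (1 - 2 * ε) := by
          rw [← Real.rpow_natCast, ← Real.rpow_mul hQ0.le]
          congr 1
          push_cast
          ring
    have e8 : (N : ℝ) ^ 2 * (N : ℝ) ^ ε * (Q : ℝ) ^ (1 - 2 * ε) ≤ Q * (N : ℝ) ^ (2 - ε / 2) := by
      have f1 : (N : ℝ) ^ 2 * (N : ℝ) ^ ε = (N : ℝ) ^ (2 - ε / 2) * (N : ℝ) ^ (3 / 2 * ε) := by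
        rw [← Real.rpow_natCast, ← Real.rpow_add hN0, ← Real.rpow_add hN0]
        congr 1
        push_cast
        ring
      have f2 : (N : ℝ) ^ (3 / 2 * ε) ≤ (Q : ℝ) ^ (2 * ε) :=
        (Real.rpow_le_rpow hN0.le hNQ1 (by positivity)).trans
          (Real.rpow_le_rpow_of_exponent_le hQ1 (by linarith))
      have f3 : (Q : ℝ) ^ (2 * ε) * (Q : ℝ) ^ (1 - 2 * ε) = Q := by
        rw [← Real.rpow_add hQ0]
        have f4 : 2 * ε + (1 - 2 * ε) = 1 := by ring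
        rw [f4, Real.rpow_one]
      calc (N : ℝ) ^ 2 * (N : ℝ) ^ ε * (Q : ℝ) ^ (1 - 2 * ε) =
            (N : ℝ) ^ (2 - ε / 2) * (N : ℝ) ^ (3 / 2 * ε) * (Q : ℝ) ^ (1 - 2 * ε) := by rw [f1]
        _ ≤ (N : ℝ) ^ (2 - ε / 2) * (Q : ℝ) ^ (2 * ε) * (Q : ℝ) ^ (1 - 2 * ε) := by gcongr
        _ = (N : ℝ) ^ (2 - ε / 2) * ((Q : ℝ) ^ (2 * ε) * (Q : ℝ) ^ (1 - 2 * ε)) := by ring
        _ = Q * (N : ℝ) ^ (2 - ε / 2) := by rw [f3]; ring
    have e9 : (0 : ℝ) ≤ 1 + 8 / ε := by positivity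
    calc Cm * ((U2 : ℝ) + j) ^ 4 * (j : ℝ) ^ 2 * (1 + Real.log ((U2 : ℝ) + j)) ≤
          Cm * (8 * (N : ℝ)) ^ 4 * (j : ℝ) ^ 2 * ((1 + 8 / ε) * (N : ℝ) ^ ε) := by
          refine mul_le_mul ?_ e6 ?_ (by positivity)
          · gcongr
          · have : 0 ≤ Real.log ((U2 : ℝ) + j) := Real.log_nonneg (by
              have : (0 : ℝ) ≤ U2 := Nat.cast_nonneg _
              linarith)
            linarith
      _ = 4096 * (1 + 8 / ε) * Cm * ((N : ℝ) ^ 2 * (N : ℝ) ^ ε * ((N : ℝ) * j) ^ 2) := by ring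
      _ ≤ 4096 * (1 + 8 / ε) * Cm * ((N : ℝ) ^ 2 * (N : ℝ) ^ ε * (Q : ℝ) ^ (1 - 2 * ε)) := by
          gcongr
      _ ≤ 4096 * (1 + 8 / ε) * Cm * (Q * (N : ℝ) ^ (2 - ε / 2)) := by gcongr
      _ = 4096 * (1 + 8 / ε) * Cm * Q * (N : ℝ) ^ (2 - ε / 2) := by ring
  calc (Q : ℝ) * ((sol (U1 + j) (U2 + j) j).card : ℝ) +
        Cm * ((U2 : ℝ) + j) ^ 4 * (j : ℝ) ^ 2 * (1 + Real.log ((U2 : ℝ) + j)) ≤
        128 * Cc * Q * (N : ℝ) ^ (2 - ε / 2) +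
          4096 * (1 + 8 / ε) * Cm * Q * (N : ℝ) ^ (2 - ε / 2) := add_le_add t1 t2
    _ = (128 * Cc + 4096 * (1 + 8 / ε) * Cm) * Q * (N : ℝ) ^ (2 - ε / 2) := by ring

/-- the number of scales -/
theorem log_le {s : ℝ} (hs : 0 < s) {Q : ℕ} (hQ : 1 ≤ Q) :
    ((Nat.log 2 Q + 1 : ℕ) : ℝ) ≤ (1 + 2 / s) * (Q : ℝ) ^ s := by
  have hQ1 : (1 : ℝ) ≤ Q := by exact_mod_cast hQ
  have h1 : ((2 : ℝ)) ^ (Nat.log 2 Q) ≤ Q := by
    exact_mod_cast Nat.pow_log_le_self 2 (by omega : Q ≠ 0)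
  have h2 : (Nat.log 2 Q : ℝ) * Real.log 2 ≤ Real.log Q := by
    rw [← Real.log_pow]
    exact Real.log_le_log (by positivity) h1
  have h3 : (1 / 2 : ℝ) ≤ Real.log 2 := by
    have := Real.log_two_gt_d9
    linarith
  have h4 : (Nat.log 2 Q : ℝ) * (1 / 2) ≤ (Nat.log 2 Q : ℝ) * Real.log 2 := by gcongr
  have h5 : Real.log Q ≤ (Q : ℝ) ^ s / s := Real.log_le_rpow_div (by linarith) hs
  have h6 : (1 : ℝ) ≤ (Q : ℝ) ^ s := Real.one_le_rpow hQ1 hs.le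
  push_cast
  have h7 : (Nat.log 2 Q : ℝ) ≤ 2 * ((Q : ℝ) ^ s / s) := by linarith
  calc (Nat.log 2 Q : ℝ) + 1 ≤ 2 * ((Q : ℝ) ^ s / s) + (Q : ℝ) ^ s := add_le_add h7 h6
    _ = (1 + 2 / s) * (Q : ℝ) ^ s := by ring

theorem t_FINQ (hU : S_UNI) (hC : S_CNTQ) (hM : S_MOMQ) : S_FINQ := by
  intro ε0 hε0
  classical
  obtain ⟨ε, hε, hε1, hεε⟩ : ∃ ε : ℝ, 0 < ε ∧ ε ≤ 1 / 4 ∧ ε ≤ ε0 :=
    ⟨min ε0 (1 / 4), lt_min hε0 (by norm_num), min_le_right _ _, min_le_left _ _⟩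
  obtain ⟨δ, hδ, CU, hCU, hU⟩ := hU (ε / 2) (by positivity) (by linarith)
  obtain ⟨Cc, hCc, hC⟩ := hC (ε / 2) (by positivity)
  obtain ⟨Cm, hCm, hM⟩ := hM
  obtain ⟨C', hC'⟩ : ∃ C' : ℝ, C' = 128 * Cc + 4096 * (1 + 8 / ε) * Cm := ⟨_, rfl⟩
  have hC'0 : 0 ≤ C' := by rw [hC']; positivity
  obtain ⟨s, hs⟩ : ∃ s : ℝ, s = ε ^ 2 / 8 := ⟨_, rfl⟩
  have hs0 : 0 < s := by rw [hs]; positivity
  have hs1 : s ≤ 1 / 4 := by
    rw [hs]
    nlinarith
  obtain ⟨B, hB⟩ : ∃ B : ℝ, B = 2 * CU * C' * (1 + 2 / s) := ⟨_, rfl⟩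
  have hCU0 : 0 ≤ CU := by linarith
  have hB0 : 0 ≤ B := by rw [hB]; positivity
  refine ⟨min δ s, lt_min hδ hs0, CU + 4096 + B, by positivity, fun Q hQ => ?_⟩
  have hQ1 : (1 : ℝ) ≤ Q := by exact_mod_cast hQ
  have hQ0 : (0 : ℝ) < Q := by linarith
  have hms : min δ s ≤ s := min_le_right _ _
  by_cases hQb : Q < 4096
  · -- small `Q`
    have h1 : ExQ ε0 (min δ s) (CU + 4096 + B) Q ⊆ ((Icc 1 Q : Finset ℕ) : Set ℕ) := by
      rintro q ⟨hq, hqQ, -⟩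
      rw [Finset.coe_Icc]
      exact ⟨hq.one_lt.le, hqQ⟩
    have h2 := Set.ncard_le_ncard h1 (Finset.finite_toSet _)
    rw [Set.ncard_coe_finset, Nat.card_Icc, Nat.add_sub_cancel] at h2
    have h3 : ((ExQ ε0 (min δ s) (CU + 4096 + B) Q).ncard : ℝ) ≤ 4096 := by
      have : (ExQ ε0 (min δ s) (CU + 4096 + B) Q).ncard ≤ 4096 := by omega
      exact_mod_cast this
    have h4 : (1 : ℝ) ≤ (Q : ℝ) ^ (1 - min δ s) := Real.one_le_rpow hQ1 (by linarith)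
    calc ((ExQ ε0 (min δ s) (CU + 4096 + B) Q).ncard : ℝ) ≤ 4096 := h3
      _ ≤ (CU + 4096 + B) * 1 := by linarith
      _ ≤ (CU + 4096 + B) * (Q : ℝ) ^ (1 - min δ s) := by gcongr
  · have hQb' : (4096 : ℝ) ≤ Q := by
      have : 4096 ≤ Q := by omega
      exact_mod_cast this
    have h8 : (8 : ℝ) ≤ (Q : ℝ) ^ (1 / 4 : ℝ) := by
      calc (8 : ℝ) = ((8 : ℝ) ^ (4 : ℝ)) ^ (1 / 4 : ℝ) := by
            rw [← Real.rpow_mul (by norm_num)]
            norm_num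
        _ ≤ (Q : ℝ) ^ (1 / 4 : ℝ) :=
            Real.rpow_le_rpow (by positivity) (by norm_num; omega) (by norm_num)
    have h34 : 8 * (Q : ℝ) ^ (1 / 2 : ℝ) ≤ (Q : ℝ) ^ (3 / 4 : ℝ) := by
      have h1 : (Q : ℝ) ^ (3 / 4 : ℝ) = (Q : ℝ) ^ (1 / 4 : ℝ) * (Q : ℝ) ^ (1 / 2 : ℝ) := by
        rw [← Real.rpow_add hQ0]
        norm_num
      rw [h1]
      gcongr
    have hhQ : (Q : ℝ) ^ (1 / 2 : ℝ) ≤ Q := by
      calc (Q : ℝ) ^ (1 / 2 : ℝ) ≤ (Q : ℝ) ^ (1 : ℝ) :=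
            Real.rpow_le_rpow_of_exponent_le hQ1 (by norm_num)
        _ = Q := Real.rpow_one _
    obtain ⟨S, hS⟩ : ∃ S : Finset ℕ, S = (Icc 1 Q).filter
      (fun q : ℕ => q.Prime ∧ (Q : ℝ) ^ (3 / 4 : ℝ) < (q : ℝ)) := ⟨_, rfl⟩
    obtain ⟨J, hJ⟩ : ∃ J : ℕ → ℕ, ∀ k, J k = ⌊min ((2 * ((2 ^ k : ℕ) : ℝ)) ^ (1 - ε))
      ((Q : ℝ) ^ (1 / 2 - ε) / ((2 ^ k : ℕ) : ℝ))⌋₊ := ⟨_, fun k => rfl⟩
    obtain ⟨E, hE⟩ : ∃ E : ℕ → Set ℕ, ∀ k, E k = {ω | ∃ X H : ℝ, ((2 ^ k : ℕ) : ℝ) ≤ X ∧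
      X ≤ 2 * ((2 ^ k : ℕ) : ℝ) ∧ 1 ≤ H ∧ H ≤ X ∧ ⌊H⌋₊ ≤ J k ∧
      CU * H * X ^ (-δ) < |VV (aa ω) X H - 6 / Real.pi ^ 2 * H|} := ⟨_, fun k => rfl⟩
    obtain ⟨K, hK⟩ : ∃ K : Finset ℕ, K = (range (Nat.log 2 Q + 1)).filter
      (fun k => (Q : ℝ) ^ ε ≤ 2 * ((2 ^ k : ℕ) : ℝ) ∧ ((2 ^ k : ℕ) : ℝ) ≤ (Q : ℝ) ^ (1 / 2 : ℝ)) :=
      ⟨_, rfl⟩
    -- agreement
    have hag : ∀ q ∈ S, ∀ k, ((2 ^ k : ℕ) : ℝ) ≤ (Q : ℝ) ^ (1 / 2 : ℝ) →
        ∀ n ≤ 8 * 2 ^ k, aa q n = qa q n := by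
      intro q hq k hk n hn
      rw [hS, mem_filter] at hq
      refine aa_eq hq.2.1 ?_
      have h1 : (n : ℝ) ≤ 8 * ((2 ^ k : ℕ) : ℝ) := by exact_mod_cast hn
      have h2 : (n : ℝ) < q := by
        have := hq.2.2
        linarith
      exact_mod_cast h2
    have hJle : ∀ k j, j ≤ J k → (j : ℝ) ≤ (2 * ((2 ^ k : ℕ) : ℝ)) ^ (1 - ε) ∧
        (j : ℝ) ≤ (Q : ℝ) ^ (1 / 2 - ε) / ((2 ^ k : ℕ) : ℝ) := by
      intro k j hj
      have h1 : (j : ℝ) ≤ (J k : ℝ) := by exact_mod_cast hj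
      have h2 : (J k : ℝ) ≤ min ((2 * ((2 ^ k : ℕ) : ℝ)) ^ (1 - ε))
          ((Q : ℝ) ^ (1 / 2 - ε) / ((2 ^ k : ℕ) : ℝ)) := by
        rw [hJ]
        exact Nat.floor_le (by positivity)
      exact ⟨(h1.trans h2).trans (min_le_left _ _), (h1.trans h2).trans (min_le_right _ _)⟩
    -- one scale
    have hone : ∀ k ∈ K, ((S.filter (fun q => q ∈ E k)).card : ℝ) ≤
        2 * CU * C' * (Q : ℝ) ^ (1 - 2 * s) := by
      intro k hk
      rw [hK, mem_filter] at hk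
      obtain ⟨-, hk1, hk2⟩ := hk
      have hN1 : 1 ≤ 2 ^ k := Nat.one_le_two_pow
      have hN1' : (1 : ℝ) ≤ ((2 ^ k : ℕ) : ℝ) := by exact_mod_cast hN1
      have hNQ : 2 ^ k ≤ Q := by
        have : ((2 ^ k : ℕ) : ℝ) ≤ Q := hk2.trans hhQ
        exact_mod_cast this
      have hJ2 : ∀ j, j ≤ J k → j ≤ 2 * 2 ^ k := by
        intro j hj
        have h1 := (hJle k j hj).1
        have h2 : (2 * ((2 ^ k : ℕ) : ℝ)) ^ (1 - ε) ≤ (2 * ((2 ^ k : ℕ) : ℝ)) ^ (1 : ℝ) :=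
          Real.rpow_le_rpow_of_exponent_le (by linarith) (by linarith)
        rw [Real.rpow_one] at h2
        have h3 := h1.trans h2
        exact_mod_cast h3
      have h1 := hU ℕ (nu S) aa (fun n => measurable_from_nat) norm_aa (2 ^ k) (J k) (C' * Q) hN1
        (hJ2 _ le_rfl) (by positivity) (by
          intro U1 U2 j hU12 hU2 hj hjJ
          rw [nu_int]
          have h2 : ∀ q ∈ S, ‖ZZ (aa q) U1 U2 j‖ ^ 2 = ‖ZZ (qa q) U1 U2 j‖ ^ 2 := by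
            intro q hq
            rw [ZZ_eq (hag q hq k hk2)]
            have := hJ2 j hjJ
            omega
          rw [sum_congr rfl h2]
          have h3 : ∑ q ∈ S, ‖ZZ (qa q) U1 U2 j‖ ^ 2 ≤
              ∑ q ∈ (Icc 1 Q).filter (fun q => q.Prime ∧ 2 < q), ‖ZZ (qa q) U1 U2 j‖ ^ 2 := by
            refine sum_le_sum_of_subset_of_nonneg ?_ fun _ _ _ => by positivity
            intro q hq
            rw [hS, mem_filter] at hq
            rw [mem_filter]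
            refine ⟨hq.1, hq.2.1, ?_⟩
            have h4 := hq.2.2
            have h5 : (1 : ℝ) ≤ (Q : ℝ) ^ (1 / 2 : ℝ) := Real.one_le_rpow hQ1 (by norm_num)
            have h6 : (2 : ℝ) < q := by linarith
            exact_mod_cast h6
          refine h3.trans ?_
          have h7 := mom hε hε1 hCc hCm hC hM (Q := Q) (N := 2 ^ k) (U1 := U1) (U2 := U2) (j := j)
            hN1 hNQ hU12 hU2 hj (hJ2 j hjJ) (hJle k j hjJ).1 (by
              have h8 := (hJle k j hjJ).2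
              rw [le_div_iff₀ (by linarith)] at h8
              linarith)
          rw [← hC'] at h7
          exact h7)
      have h2 : nu S (E k) ≤ ENNReal.ofReal (CU * (C' * Q) *
          ((2 ^ k : ℕ) : ℝ) ^ (-(ε / 2 / 2))) := by
        rw [hE]
        exact h1
      rw [nu_apply] at h2
      have h3 : ((S.filter (fun q => q ∈ E k)).card : ℝ) ≤
          CU * (C' * Q) * ((2 ^ k : ℕ) : ℝ) ^ (-(ε / 2 / 2)) := by
        have h4 := (ENNReal.le_ofReal_iff_toReal_le (ENNReal.natCast_ne_top _)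
          (by positivity)).1 h2
        rwa [ENNReal.toReal_natCast] at h4
      refine h3.trans ?_
      have h5 : ((2 ^ k : ℕ) : ℝ) ^ (-(ε / 2 / 2)) ≤ 2 * (Q : ℝ) ^ (-(2 * s)) := by
        have h6 : (Q : ℝ) ^ ε / 2 ≤ ((2 ^ k : ℕ) : ℝ) := by linarith
        have h7 : ((2 ^ k : ℕ) : ℝ) ^ (-(ε / 2 / 2)) ≤ ((Q : ℝ) ^ ε / 2) ^ (-(ε / 2 / 2)) :=
          Real.rpow_le_rpow_of_nonpos (by positivity) h6 (by linarith)
        refine h7.trans ?_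
        rw [Real.div_rpow (by positivity) (by norm_num), ← Real.rpow_mul hQ0.le]
        have h9 : ε * -(ε / 2 / 2) = -(2 * s) := by
          rw [hs]
          ring
        rw [h9, Real.rpow_neg (by norm_num : (0 : ℝ) ≤ 2), div_inv_eq_mul, mul_comm]
        refine mul_le_mul_of_nonneg_right ?_ (by positivity)
        calc (2 : ℝ) ^ (ε / 2 / 2) ≤ (2 : ℝ) ^ (1 : ℝ) :=
              Real.rpow_le_rpow_of_exponent_le (by norm_num) (by linarith)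
          _ = 2 := by norm_num
      have h10 : (Q : ℝ) * (Q : ℝ) ^ (-(2 * s)) = (Q : ℝ) ^ (1 - 2 * s) := by
        rw [sub_eq_add_neg, Real.rpow_add hQ0, Real.rpow_one]
      calc CU * (C' * Q) * ((2 ^ k : ℕ) : ℝ) ^ (-(ε / 2 / 2)) ≤
            CU * (C' * Q) * (2 * (Q : ℝ) ^ (-(2 * s))) := by gcongr
        _ = 2 * CU * C' * ((Q : ℝ) * (Q : ℝ) ^ (-(2 * s))) := by ring
        _ = 2 * CU * C' * (Q : ℝ) ^ (1 - 2 * s) := by rw [h10]
    -- the inclusion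
    have hsub : ExQ ε0 (min δ s) (CU + 4096 + B) Q ⊆
        ((Icc 1 ⌊(Q : ℝ) ^ (3 / 4 : ℝ)⌋₊ ∪ K.biUnion (fun k => S.filter (fun q => q ∈ E k)) :
          Finset ℕ) : Set ℕ) := by
      rintro q ⟨hq, hqQ, X, H, hX, hH1, hHX, hXH, hlt⟩
      rw [Finset.mem_coe, mem_union]
      by_cases hq34 : (q : ℝ) ≤ (Q : ℝ) ^ (3 / 4 : ℝ)
      · left
        rw [mem_Icc]
        exact ⟨hq.one_lt.le, Nat.le_floor hq34⟩
      · right
        have hqS : q ∈ S := by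
          rw [hS, mem_filter, mem_Icc]
          exact ⟨⟨hq.one_lt.le, hqQ⟩, hq, not_le.1 hq34⟩
        have hX1 : 1 ≤ X := (Real.one_le_rpow hQ1 hε0.le).trans hX
        have hX0 : 0 < X := by linarith
        have hfl : ⌊X⌋₊ ≠ 0 := by
          have := Nat.le_floor (show ((1 : ℕ) : ℝ) ≤ X by simpa using hX1)
          omega
        obtain ⟨k, hk⟩ : ∃ k, k = Nat.log 2 ⌊X⌋₊ := ⟨_, rfl⟩
        have hk1 : ((2 ^ k : ℕ) : ℝ) ≤ X := by
          have h1 : 2 ^ k ≤ ⌊X⌋₊ := by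
            rw [hk]
            exact Nat.pow_log_le_self 2 hfl
          exact (Nat.cast_le.2 h1).trans (Nat.floor_le hX0.le)
        have hk2 : X ≤ 2 * ((2 ^ k : ℕ) : ℝ) := by
          have h1 : ⌊X⌋₊ < 2 ^ (k + 1) := by
            rw [hk]
            exact Nat.lt_pow_succ_log_self (by norm_num) _
          have h2 : ((⌊X⌋₊ + 1 : ℕ) : ℝ) ≤ ((2 ^ (k + 1) : ℕ) : ℝ) := by
            exact_mod_cast h1
          have h3 := Nat.lt_floor_add_one X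
          push_cast at h2
          rw [pow_succ] at h2
          push_cast
          linarith
        have hXQ : X ≤ (Q : ℝ) ^ (1 / 2 - ε0) := by
          have h1 : X * 1 ≤ X * H := mul_le_mul_of_nonneg_left hH1 hX0.le
          linarith
        have hXQ2 : X ≤ (Q : ℝ) ^ (1 / 2 : ℝ) :=
          hXQ.trans (Real.rpow_le_rpow_of_exponent_le hQ1 (by linarith))
        have hkQ : ((2 ^ k : ℕ) : ℝ) ≤ (Q : ℝ) ^ (1 / 2 : ℝ) := hk1.trans hXQ2
        have hHX' : H ≤ X := by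
          refine hHX.trans ?_
          calc X ^ (1 - ε0) ≤ X ^ (1 : ℝ) := Real.rpow_le_rpow_of_exponent_le hX1 (by linarith)
            _ = X := Real.rpow_one _
        rw [mem_biUnion]
        refine ⟨k, ?_, ?_⟩
        · rw [hK, mem_filter, mem_range]
          refine ⟨?_, ?_, hkQ⟩
          · have h1 : 2 ^ k ≤ Q := by
              have : ((2 ^ k : ℕ) : ℝ) ≤ Q := hkQ.trans hhQ
              exact_mod_cast this
            have h2 : k ≤ Nat.log 2 Q := Nat.le_log_of_pow_le (by norm_num) h1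
            omega
          · exact ((Real.rpow_le_rpow_of_exponent_le hQ1 hεε).trans hX).trans hk2
        · rw [mem_filter, hE]
          refine ⟨hqS, X, H, hk1, hk2, hH1, hHX', ?_, ?_⟩
          · rw [hJ]
            refine Nat.floor_le_floor (le_min ?_ ?_)
            · calc H ≤ X ^ (1 - ε0) := hHX
                _ ≤ X ^ (1 - ε) := Real.rpow_le_rpow_of_exponent_le hX1 (by linarith)
                _ ≤ (2 * ((2 ^ k : ℕ) : ℝ)) ^ (1 - ε) :=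
                  Real.rpow_le_rpow hX0.le hk2 (by linarith)
            · rw [le_div_iff₀ (by positivity)]
              calc H * ((2 ^ k : ℕ) : ℝ) ≤ H * X := by gcongr
                _ = X * H := mul_comm _ _
                _ ≤ (Q : ℝ) ^ (1 / 2 - ε0) := hXH
                _ ≤ (Q : ℝ) ^ (1 / 2 - ε) :=
                  Real.rpow_le_rpow_of_exponent_le hQ1 (by linarith)
          · rw [VV_eq (hag q hqS k hkQ) hX0.le (by push_cast; push_cast at hk2; linarith)]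
            refine lt_of_le_of_lt ?_ hlt
            have h1 : X ^ (-δ) ≤ X ^ (-(min δ s)) :=
              Real.rpow_le_rpow_of_exponent_le hX1 (neg_le_neg (min_le_left _ _))
            have h2 : CU ≤ CU + 4096 + B := by linarith
            gcongr
    have h1 := Set.ncard_le_ncard hsub (Finset.finite_toSet _)
    rw [Set.ncard_coe_finset] at h1
    have h2 := h1.trans (card_union_le _ _)
    rw [Nat.card_Icc, Nat.add_sub_cancel] at h2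
    have h3 := h2.trans (Nat.add_le_add_left card_biUnion_le _)
    have h4 : ((ExQ ε0 (min δ s) (CU + 4096 + B) Q).ncard : ℝ) ≤
        (⌊(Q : ℝ) ^ (3 / 4 : ℝ)⌋₊ : ℝ) + ∑ k ∈ K, ((S.filter (fun q => q ∈ E k)).card : ℝ) := by
      exact_mod_cast h3
    have h5 : (⌊(Q : ℝ) ^ (3 / 4 : ℝ)⌋₊ : ℝ) ≤ (Q : ℝ) ^ (1 - s) :=
      (Nat.floor_le (by positivity)).trans
        (Real.rpow_le_rpow_of_exponent_le hQ1 (by linarith))
    have h6 : ∑ k ∈ K, ((S.filter (fun q => q ∈ E k)).card : ℝ) ≤ B * (Q : ℝ) ^ (1 - s) := by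
      refine (sum_le_sum hone).trans ?_
      rw [sum_const, nsmul_eq_mul]
      have h7 : (K.card : ℝ) ≤ (1 + 2 / s) * (Q : ℝ) ^ s := by
        refine le_trans ?_ (log_le hs0 hQ)
        have : K.card ≤ Nat.log 2 Q + 1 := by
          rw [hK]
          refine (card_filter_le _ _).trans ?_
          rw [card_range]
        exact_mod_cast this
      have h8 : (Q : ℝ) ^ s * (Q : ℝ) ^ (1 - 2 * s) = (Q : ℝ) ^ (1 - s) := by
        rw [← Real.rpow_add hQ0]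
        congr 1
        ring
      calc (K.card : ℝ) * (2 * CU * C' * (Q : ℝ) ^ (1 - 2 * s)) ≤
            ((1 + 2 / s) * (Q : ℝ) ^ s) * (2 * CU * C' * (Q : ℝ) ^ (1 - 2 * s)) := by gcongr
        _ = B * ((Q : ℝ) ^ s * (Q : ℝ) ^ (1 - 2 * s)) := by rw [hB]; ring
        _ = B * (Q : ℝ) ^ (1 - s) := by rw [h8]
    have h9 : (Q : ℝ) ^ (1 - s) ≤ (Q : ℝ) ^ (1 - min δ s) :=
      Real.rpow_le_rpow_of_exponent_le hQ1 (by linarith)
    calc ((ExQ ε0 (min δ s) (CU + 4096 + B) Q).ncard : ℝ) ≤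
          (Q : ℝ) ^ (1 - s) + B * (Q : ℝ) ^ (1 - s) := h4.trans (add_le_add h5 h6)
      _ = (1 + B) * (Q : ℝ) ^ (1 - s) := by ring
      _ ≤ (CU + 4096 + B) * (Q : ℝ) ^ (1 - min δ s) := by
          refine mul_le_mul (by linarith) h9 (by positivity) (by positivity)

end Pool.Agent.K1H75.GT
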